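import Pool.Agent.helper77.MC.Spec

set_option autoImplicit false

namespace Pool.Agent.helper77.MC

open Finset Numbering

theorem GD (h1 : FA_stmt) : GD_stmt := by
  intro β _ _ y c m w g hy hc hw hg f
  obtain ⟨k1, k2, -⟩ := h1 β y c c m m hy hc
  by_cases h : ∃ J ∈ fam y c m, f ∈ prefixed J
  · obtain ⟨J, hJ, hfJ⟩ := h
    rw [sum_eq_single_of_mem J hJ, if_pos hfJ]
    · exact hg _ (k1 J hJ).2.1
    · intro J' hJ' hne
      rw [if_neg]
      intro hfJ'
      by_cases a : J ⊆ J'
      · exact hne (k2 J hJ J' hJ' a).symm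
      · by_cases b : J' ⊆ J
        · exact hne (k2 J' hJ' J hJ b)
        · exact (Finset.disjoint_left.1 (disjoint_prefixed_prefixed a b)) hfJ hfJ'
  · rw [sum_eq_zero]
    · exact hw
    · intro J hJ
      rw [if_neg (fun h' => h ⟨J, hJ, h'⟩)]

end Pool.Agent.helper77.MC
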