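import Pool.Agent.helper77.MC.Spec

set_option autoImplicit false

namespace Pool.Agent.helper77.MC

open Finset Numbering

theorem SG (h1 : JC_stmt) : SG_stmt := by
  intro β _ _ t A hA hanti
  have hP : (0 : ℝ) < (#(prefixed t : Finset (Numbering β)) : ℝ) := by
    rw [card_prefixed]
    exact_mod_cast Nat.mul_pos (Nat.factorial_pos _) (Nat.factorial_pos _)
  have hd : ∀ s ∈ A, ∀ s' ∈ A, s ≠ s' →
      Disjoint ((prefixed s : Finset (Numbering β)) ∩ prefixed t)
        ((prefixed s' : Finset (Numbering β)) ∩ prefixed t) := by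
    intro s hs s' hs' hne
    exact (disjoint_prefixed_prefixed (fun h => hne (hanti s hs s' hs' h))
      (fun h => hne (hanti s' hs' s hs h).symm)).mono inter_subset_left inter_subset_left
  have hc := card_biUnion hd
  have hle : #(A.biUnion fun s => (prefixed s : Finset (Numbering β)) ∩ prefixed t) ≤
      #(prefixed t : Finset (Numbering β)) :=
    card_le_card (biUnion_subset.2 fun s _ => inter_subset_right)
  rw [hc] at hle
  have e : ∀ s ∈ A, ((#((prefixed s : Finset (Numbering β)) ∩ prefixed t) : ℕ) : ℝ) =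
      (#(prefixed t : Finset (Numbering β)) : ℝ) * ((#t).choose #s : ℝ)⁻¹ := by
    intro s hs
    have h := h1 β s t (hA s hs)
    have hc : ((#t).choose #s : ℝ) ≠ 0 := by
      exact_mod_cast (Nat.choose_pos (card_le_card (hA s hs))).ne'
    rw [← h]
    push_cast
    field_simp
  have h2 : ∑ s ∈ A, (#(prefixed t : Finset (Numbering β)) : ℝ) * ((#t).choose #s : ℝ)⁻¹ ≤
      (#(prefixed t : Finset (Numbering β)) : ℝ) := by
    rw [← sum_congr rfl e]
    exact_mod_cast hle
  rw [← mul_sum] at h2
  have h3 : (#(prefixed t : Finset (Numbering β)) : ℝ) * ∑ s ∈ A, ((#t).choose #s : ℝ)⁻¹ ≤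
      (#(prefixed t : Finset (Numbering β)) : ℝ) * 1 := by
    rw [mul_one]
    exact h2
  exact le_of_mul_le_mul_left h3 hP

end Pool.Agent.helper77.MC
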